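import Pool.Agent.L0h94.SP.StmB

/-!
# Project SP (helper94), part CLL (helper51): points and divisors
-/

set_option autoImplicit false
set_option linter.all false

open Polynomial IsDedekindDomain NumberField
open scoped Classical

namespace Pool.Agent.L0h51.SP

open Pool.Agent.L0h94.SP
open Pool.Agent.N783.PQ (LocIm)

/-- **SP/CLL** -/
theorem t_CLL : S_CLL := by
  intro K _ f h hcl
  obtain ⟨l, s, hl, hs⟩ := hcl
  refine ⟨l.map fun p => (X - C p.1, C p.2), s, ?_, ?_⟩
  · intro p hp
    rw [List.mem_map] at hp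
    obtain ⟨q, hq, rfl⟩ := hp
    obtain ⟨h1, h2⟩ := hl q hq
    refine ⟨monic_X_sub_C _, ?_, ?_⟩
    · refine (irreducible_X_sub_C q.1).coprime_iff_not_dvd.2 ?_
      rw [dvd_iff_isRoot, IsRoot.def, ← h2]
      exact pow_ne_zero 2 h1
    · show X - C q.1 ∣ (C q.2) ^ 2 - f
      rw [dvd_iff_isRoot, IsRoot.def, eval_sub, eval_pow, eval_C, h2, sub_self]
  · rw [List.map_map]
    have h1 : (fun p : K[X] × K[X] => (-1) ^ p.1.natDegree * p.1) ∘
        (fun p : K × K => (X - C p.1, C p.2)) = fun p : K × K => C p.1 - X := by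
      funext p
      simp only [Function.comp_apply, natDegree_X_sub_C]
      ring
    rw [h1]
    exact hs

end Pool.Agent.L0h51.SP
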