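import Pool.Agent.L0h51.SP.RES1

/-!
# Project SP (helper94), part CLW (helper51): from classes to points over the completion
-/

set_option autoImplicit false
set_option linter.all false

open Polynomial IsDedekindDomain NumberField
open scoped Classical

namespace Pool.Agent.L0h51.SP

open Pool.Agent.L0h94.SP
open Pool.Agent.N783.PF
open Pool.Agent.N615.JB (nrm0)
open Pool.Agent.N874.PP (Ev Sq1 U0)

/-- Base change of the norm. -/
theorem nrm_map (K E : Type) [Field K] [Field E] [Algebra K E] {f : K[X]} (hf : f.Monic)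
    (h : K[X]) : Algebra.norm E (AdjoinRoot.mk (f.map (algebraMap K E))
      (h.map (algebraMap K E))) = algebraMap K E (Algebra.norm K (AdjoinRoot.mk f h)) := by
  apply (algebraMap E (AlgebraicClosure E)).injective
  rw [nrm0 E (AlgebraicClosure E) _ _ (hf.map _) (IsAlgClosed.splits _),
    ← IsScalarTower.algebraMap_apply K E (AlgebraicClosure E),
    nrm0 K (AlgebraicClosure E) f h hf (IsAlgClosed.splits _), Polynomial.map_map,
    ← IsScalarTower.algebraMap_eq]
  congr 1
  refine Multiset.map_congr rfl fun e _ => ?_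
  rw [aeval_map_algebraMap]

/-- Substitution of `D X`. -/
theorem scale_dvd {E : Type} [Field E] {D : E} (hD : D ≠ 0) {f H s : E[X]}
    (h : f ∣ H.comp (C D * X) - s ^ 2) : ∃ s : E[X], f.scaleRoots D ∣ H - s ^ 2 := by
  obtain ⟨q, hq⟩ := h
  have e1 : (C D * X : E[X]).comp (C D⁻¹ * X) = X := by
    rw [mul_comp, C_comp, X_comp, ← mul_assoc, ← C_mul, mul_inv_cancel₀ hD, C_1, one_mul]
  have e2 : (f.scaleRoots D).comp (C D * X) = C (D ^ f.natDegree) * f := by
    have := scaleRoots_eval₂_mul (p := f) (C : E →+* E[X]) X D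
    rw [eval₂_C_X] at this
    rw [C_pow]
    exact this
  have e3 : f.scaleRoots D = C (D ^ f.natDegree) * f.comp (C D⁻¹ * X) := by
    have := congrArg (fun p => p.comp (C D⁻¹ * X)) e2
    simp only [comp_assoc, e1, comp_X, mul_comp, C_comp] at this
    exact this
  have e4 := congrArg (fun p => p.comp (C D⁻¹ * X)) hq
  simp only [sub_comp, pow_comp, comp_assoc, e1, comp_X, mul_comp] at e4
  refine ⟨s.comp (C D⁻¹ * X), ?_⟩
  rw [e4, e3]
  refine ⟨C (D ^ f.natDegree)⁻¹ * q.comp (C D⁻¹ * X), ?_⟩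
  have e5 : (C (D ^ f.natDegree) * C (D ^ f.natDegree)⁻¹ : E[X]) = 1 := by
    rw [← C_mul, mul_inv_cancel₀ (pow_ne_zero _ hD), C_1]
  linear_combination (-(f.comp (C D⁻¹ * X)) * q.comp (C D⁻¹ * X)) * e5

section gen

variable {g : ℕ} {F L : Type} [Field F] [NumberField F] [Field L] [NumberField L] [Algebra F L]
  {f : (𝓞 F)[X]} {θ : L}

lemma fF_deg (hG : IsGen g f θ) : (fF f).natDegree = 2 * g + 1 := by
  rw [← hG.deg]
  exact hG.mon.natDegree_map _

lemma fF_mon (hG : IsGen g f θ) : (fF f).Monic := hG.mon.map _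

lemma aeval_mod (hG : IsGen g f θ) (P : F[X]) : aeval θ (P %ₘ fF f) = aeval θ P := by
  conv_rhs => rw [← modByMonic_add_div P (fF f)]
  rw [map_add, map_mul, hG.root, zero_mul, add_zero]

lemma repr_aeval (hG : IsGen g f θ) (P : F[X]) (i : Fin (2 * g + 1)) :
    hG.basis.repr (aeval θ P) i = (P %ₘ fF f).coeff i := by
  have hdeg : (P %ₘ fF f).natDegree < 2 * g + 1 := by
    rw [← fF_deg hG]
    refine natDegree_modByMonic_lt P (fF_mon hG) ?_
    intro h
    have := fF_deg hG
    rw [h, natDegree_one] at this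
    omega
  rw [← aeval_mod hG, aeval_eq_sum_range' hdeg,
    ← Fin.sum_univ_eq_sum_range (fun i => (P %ₘ fF f).coeff i • θ ^ i)]
  have e : ∑ i : Fin (2 * g + 1), (P %ₘ fF f).coeff i • θ ^ (i : ℕ) =
      ∑ i : Fin (2 * g + 1), (P %ₘ fF f).coeff i • hG.basis i := by
    refine Finset.sum_congr rfl fun j _ => ?_
    rw [hG.basis_apply]
  rw [e, hG.basis.repr_sum_self]

lemma norm_eq (hG : IsGen g f θ) (h : F[X]) :
    Algebra.norm F (AdjoinRoot.mk (fF f) h) = Algebra.norm F (aeval θ h) := by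
  have hm := fF_mon hG
  have hd := fF_deg hG
  rw [Algebra.norm_eq_matrix_det hG.basis,
    Algebra.norm_eq_matrix_det ((AdjoinRoot.powerBasis' hm).basis.reindex (finCongr hd))]
  congr 1
  ext i j
  rw [Algebra.leftMulMatrix_eq_repr_mul,
    Algebra.leftMulMatrix_eq_repr_mul, Module.Basis.reindex_apply, hG.basis_apply,
    PowerBasis.basis_eq_pow, AdjoinRoot.powerBasis'_gen]
  have e1 : aeval θ h * θ ^ (j : ℕ) = aeval θ (h * X ^ (j : ℕ)) := by
    rw [map_mul, map_pow, aeval_X]
  have e2 : AdjoinRoot.mk (fF f) h * AdjoinRoot.root (fF f) ^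
      (((finCongr hd).symm j : Fin _) : ℕ) =
      AdjoinRoot.mk (fF f) (h * X ^ (j : ℕ)) := by
    rw [map_mul, map_pow, AdjoinRoot.mk_X]
    rfl
  rw [e1, repr_aeval hG]
  refine (congrArg (fun x => ((AdjoinRoot.powerBasis' hm).basis.reindex (finCongr hd)).repr x i)
    e2).trans ?_
  rw [Module.Basis.repr_reindex_apply]
  refine (AdjoinRoot.powerBasisAux'_repr_apply_to_fun hm _ _).trans ?_
  rw [AdjoinRoot.modByMonicHom_mk]
  rfl

theorem fF_scale (hf : f.Monic) (D : ℕ) : fF (f.scaleRoots ((D : ℕ) : 𝓞 F)) =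
    (fF f).scaleRoots (D : F) := by
  rw [fF, fF, map_scaleRoots _ _ _ (by rw [hf.leadingCoeff, map_one]; exact one_ne_zero),
    map_natCast]

theorem gen_scale (hG : IsGen g f θ) {D : ℕ} (hD : 0 < D) :
    IsGen g (f.scaleRoots ((D : ℕ) : 𝓞 F)) ((D : L) * θ) := by
  have hD0 : (D : L) ≠ 0 := by exact_mod_cast hD.ne'
  refine ⟨(monic_scaleRoots_iff _).2 hG.mon, by rw [natDegree_scaleRoots, hG.deg], ?_, hG.rank, ?_⟩
  · rw [fF_scale hG.mon]
    have := scaleRoots_aeval_eq_zero (r := (D : F)) hG.root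
    rw [map_natCast] at this
    exact this
  · intro x
    obtain ⟨c, hc⟩ := hG.gen x
    refine ⟨fun i => c i / (D : F) ^ (i : ℕ), ?_⟩
    rw [hc]
    refine Finset.sum_congr rfl fun i _ => ?_
    rw [map_div₀, map_pow, map_natCast, mul_pow]
    have : (D : L) ^ (i : ℕ) ≠ 0 := pow_ne_zero _ hD0
    field_simp

theorem not_rat (hg : 1 ≤ g) (hG : IsGen g f θ) (x : F) : algebraMap F L x - θ ≠ 0 := by
  intro h0
  have h1 : θ = x • (1 : L) := by
    rw [Algebra.smul_def, mul_one]
    exact (sub_eq_zero.1 h0).symm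
  obtain ⟨i0, hi0⟩ : ∃ i : Fin (2 * g + 1), (i : ℕ) = 0 := ⟨⟨0, by omega⟩, rfl⟩
  obtain ⟨i1, hi1⟩ : ∃ i : Fin (2 * g + 1), (i : ℕ) = 1 := ⟨⟨1, by omega⟩, rfl⟩
  have hne : i0 ≠ i1 := by
    rintro rfl
    omega
  have b0 : hG.basis i0 = 1 := by rw [hG.basis_apply, hi0, pow_zero]
  have b1 : hG.basis i1 = θ := by rw [hG.basis_apply, hi1, pow_one]
  have h2 : hG.basis.repr (hG.basis i1) i1 = hG.basis.repr (x • hG.basis i0) i1 := by
    rw [b1, b0, ← h1]
  rw [map_smul, Module.Basis.repr_self, Module.Basis.repr_self, Finsupp.smul_apply,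
    Finsupp.single_eq_same, Finsupp.single_eq_of_ne (Ne.symm hne), smul_zero] at h2
  exact one_ne_zero h2

end gen

/-- **SP/CLW** -/
theorem t_CLW (hW : S_SQW) : S_CLW := by
  intro F L _ _ _ _ _ f θ hG hSq w hw D hD h hh hN hor
  have hG' := gen_scale hG hD
  have hDF : (D : F) ≠ 0 := by exact_mod_cast hD.ne'
  have hDE : algebraMap F (w.adicCompletion F) (D : F) ≠ 0 := by
    rw [Ne, map_eq_zero]
    exact hDF
  have key : ∀ H : F[X], aeval ((D : L) * θ) H ≠ 0 →
      (∀ 𝔓 : HeightOneSpectrum (𝓞 L), Ov w.asIdeal 𝔓 → Sq1 𝔓 (aeval ((D : L) * θ) H)) →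
      ∃ s : (w.adicCompletion F)[X], (fF (f.scaleRoots ((D : ℕ) : 𝓞 F))).map
        (algebraMap F (w.adicCompletion F)) ∣ H.map (algebraMap F (w.adicCompletion F)) - s ^ 2 := by
    intro H hH1 hH2
    have e1 : aeval θ (H.comp (C (D : F) * X)) = aeval ((D : L) * θ) H := by
      rw [aeval_comp, map_mul, aeval_C, aeval_X, map_natCast]
    obtain ⟨s, hs⟩ := hW 1 F L f θ le_rfl hG hSq w hw (H.comp (C (D : F) * X))
      (by rw [e1]; exact hH1) (by rw [e1]; exact hH2)
    rw [Polynomial.map_comp, Polynomial.map_mul, map_C, map_X] at hs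
    obtain ⟨s', hs'⟩ := scale_dvd hDE hs
    refine ⟨s', ?_⟩
    rw [fF_scale hG.mon, map_scaleRoots _ _ _ (by
      rw [(fF_mon hG).leadingCoeff, map_one]; exact one_ne_zero)]
    exact hs'
  have hmE : ((fF (f.scaleRoots ((D : ℕ) : 𝓞 F))).map
        (algebraMap F (w.adicCompletion F))).Monic := (fF_mon hG').map _
  rcases hor with h1 | ⟨x, h1⟩
  · obtain ⟨s, hs⟩ := key h hh h1
    refine ⟨[], s, fun p hp => ?_, ?_⟩
    · simp at hp
    · simpa using hs
  · have hx := not_rat le_rfl hG' x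
    have e1 : aeval ((D : L) * θ) ((C x - X) * h) =
        (algebraMap F L x - (D : L) * θ) * aeval ((D : L) * θ) h := by
      rw [map_mul, map_sub, aeval_C, aeval_X]
    obtain ⟨s, hs⟩ := key ((C x - X) * h) (by rw [e1]; exact mul_ne_zero hx hh)
      (by rw [e1]; exact h1)
    rw [Polynomial.map_mul, Polynomial.map_sub, map_C, map_X] at hs
    obtain ⟨FE, hFE⟩ : ∃ FE, FE = (fF (f.scaleRoots ((D : ℕ) : 𝓞 F))).map
        (algebraMap F (w.adicCompletion F)) := ⟨_, rfl⟩
    rw [← hFE] at hs hmE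
    have e2 : AdjoinRoot.mk FE (C (algebraMap F (w.adicCompletion F) x) - X) *
        AdjoinRoot.mk FE (h.map (algebraMap F (w.adicCompletion F))) =
        AdjoinRoot.mk FE s * AdjoinRoot.mk FE s := by
      rw [← map_mul, ← map_mul, AdjoinRoot.mk_eq_mk, ← sq s]
      exact hs
    have e3 := congrArg (Algebra.norm (w.adicCompletion F)) e2
    rw [map_mul, map_mul, nrm_pt hmE] at e3
    have e4 : Algebra.norm (w.adicCompletion F)
        (AdjoinRoot.mk FE (h.map (algebraMap F (w.adicCompletion F)))) =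
        algebraMap F (w.adicCompletion F) (Algebra.norm F (aeval ((D : L) * θ) h)) := by
      rw [hFE, nrm_map F (w.adicCompletion F) (fF_mon hG'), norm_eq hG']
    obtain ⟨m, hm⟩ := hN
    have hm0 : m ≠ 0 := by
      rintro rfl
      rw [mul_zero, Algebra.norm_eq_zero_iff] at hm
      exact hh hm
    have hmE0 : algebraMap F (w.adicCompletion F) m ≠ 0 := by
      rw [Ne, map_eq_zero]
      exact hm0
    rw [e4, hm, map_mul] at e3
    have e5 : FE.eval (algebraMap F (w.adicCompletion F) x) ≠ 0 := by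
      rw [hFE, eval_map_apply, ← nrm_pt (fF_mon hG'), norm_eq hG', Ne, map_eq_zero,
        Algebra.norm_eq_zero_iff, map_sub, aeval_C, aeval_X]
      exact hx
    have e6 : (Algebra.norm (w.adicCompletion F) (AdjoinRoot.mk FE s) /
        algebraMap F (w.adicCompletion F) m) ^ 2 =
        FE.eval (algebraMap F (w.adicCompletion F) x) := by
      rw [div_pow, div_eq_iff (pow_ne_zero 2 hmE0)]
      linear_combination -e3
    refine ⟨[(algebraMap F (w.adicCompletion F) x, Algebra.norm (w.adicCompletion F)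
      (AdjoinRoot.mk FE s) / algebraMap F (w.adicCompletion F) m)], s, fun p hp => ?_, ?_⟩
    · rw [List.mem_singleton] at hp
      subst hp
      rw [← hFE]
      refine ⟨fun h0 => ?_, e6⟩
      apply e5
      rw [← e6]
      have h0' : Algebra.norm (w.adicCompletion F) (AdjoinRoot.mk FE s) /
        algebraMap F (w.adicCompletion F) m = 0 := h0
      rw [h0', zero_pow two_ne_zero]
    · rw [← hFE]
      simp only [List.map_cons, List.map_nil, List.prod_cons, List.prod_nil, mul_one]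
      rw [mul_comm]
      exact hs

end Pool.Agent.L0h51.SP
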