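import Pool.Agent.L0h55.SP.GPX
import Pool.Agent.L0h57.SP.UREP
import Pool.Agent.N426.PF.Par
import Pool.Agent.L0h51.SP.CLW
import Pool.Agent.N31.PF.Int

/-!
# Project SP (helper94), part INERT (helper51): primes modulo which the polynomial is irreducible

An element whose norm is a square is a local square: its valuation is even, it has a unit
representative `h(θ)`, the norm of the residue of `h(θ)` is a square, and an element of a finite field
is a square if its norm to a subfield is a square.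
-/

set_option autoImplicit false
set_option linter.all false

open Polynomial IsDedekindDomain NumberField
open scoped Classical

namespace Pool.Agent.L0h51.SP

open Pool.Agent.N783.PF
open Pool.Agent.N874.PP (Ev Sq1 U0)
open Pool.Agent.L0h55.SP.G (E E_apply exists_lo vE_dvd sq1_of)

/-- At a prime modulo which `f` is irreducible an element whose norm is a square is a local square. -/
def S_INERT : Prop := ∀ (g : ℕ) (F L : Type) [Field F] [NumberField F] [Field L] [NumberField L]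
  [Algebra F L] (f : (𝓞 F)[X]) (θ : L), 1 ≤ g → IsGen g f θ → SqF g f →
  ∀ w : HeightOneSpectrum (𝓞 F), (2 : 𝓞 F) ∉ w.asIdeal → Irreducible (rd w.asIdeal f) →
  ∀ α : L, α ≠ 0 → IsSquare (Algebra.norm F α) →
  ∀ 𝔓 : HeightOneSpectrum (𝓞 L), Ov w.asIdeal 𝔓 → Sq1 𝔓 α

theorem nrm_det {R : Type} [CommRing R] {f : R[X]} (hf : f.Monic) {n : ℕ}
    (hn : f.natDegree = n) (h : R[X]) : Algebra.norm R (AdjoinRoot.mk f h) =
      Matrix.det (Matrix.of fun (i j : Fin n) => ((h * X ^ (j : ℕ)) %ₘ f).coeff i) := by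
  subst hn
  rw [Algebra.norm_eq_matrix_det (AdjoinRoot.powerBasisAux' hf)]
  congr 1
  ext i j
  rw [Algebra.leftMulMatrix_eq_repr_mul, AdjoinRoot.powerBasisAux'_repr_apply_to_fun]
  have h1 : (AdjoinRoot.powerBasisAux' hf) j = AdjoinRoot.mk f (X ^ (j : ℕ)) := by
    have := (AdjoinRoot.powerBasis' hf).basis_eq_pow j
    rw [map_pow, AdjoinRoot.mk_X]
    exact this
  rw [h1, ← map_mul, AdjoinRoot.modByMonicHom_mk]
  rfl

theorem nrm_red {R S : Type} [CommRing R] [CommRing S] [Nontrivial S] (φ : R →+* S) {f : R[X]}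
    (hf : f.Monic) (h : R[X]) : Algebra.norm S (AdjoinRoot.mk (f.map φ) (h.map φ)) =
      φ (Algebra.norm R (AdjoinRoot.mk f h)) := by
  rw [nrm_det hf rfl, nrm_det (hf.map φ) (hf.natDegree_map φ), RingHom.map_det]
  congr 1
  ext a b
  simp only [Matrix.of_apply, RingHom.mapMatrix_apply, Matrix.map_apply]
  rw [← Polynomial.map_X φ, ← Polynomial.map_pow, ← Polynomial.map_mul,
    ← Polynomial.map_modByMonic _ hf, coeff_map]

theorem inert' (hI : S_INT) : S_INERT := by
  intro g F L _ _ _ _ _ f θ hg hG hs w h2 hirr α hα hN 𝔓 hov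
  haveI := w.isMaximal
  have hev : ∀ 𝔓 : HeightOneSpectrum (𝓞 L), Ov w.asIdeal 𝔓 → Ev 𝔓 α := fun 𝔓 h =>
    Pool.Agent.N426.PF.pin hI g F L f θ hG hs w.asIdeal w.isPrime w.ne_bot hirr α hα hN 𝔓 h
  have h1 : ((1 : ℕ) : 𝓞 F) ∉ w.asIdeal := by
    rw [Nat.cast_one]
    exact fun h => w.isPrime.ne_top ((Ideal.eq_top_iff_one _).2 h)
  obtain ⟨t, h, ht, hth, hv, hcop⟩ := Pool.Agent.L0h57.SP.UREP.t_UREP hI g F L f θ hg hG hs w 1 h1
    α hα hev
  rw [Nat.cast_one, scaleRoots_one] at hcop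
  simp only [Nat.cast_one, one_mul] at hth hv
  -- the norm
  obtain ⟨n, hn⟩ : ∃ n : 𝓞 F, n = Algebra.norm (𝓞 F) (AdjoinRoot.mk f h) := ⟨_, rfl⟩
  have hnF : algebraMap (𝓞 F) F n = Algebra.norm F (α * t ^ 2) := by
    rw [hn, ← nrm_red (algebraMap (𝓞 F) F) hG.mon h, ← hth]
    exact norm_eq hG (fF h)
  obtain ⟨m, hm⟩ : ∃ m : 𝓞 F, n = m ^ 2 := by
    obtain ⟨r, hr⟩ := hN
    have e1 : (r * Algebra.norm F t) ^ 2 = algebraMap (𝓞 F) F n := by
      rw [hnF, map_mul, map_pow, hr]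
      ring
    have e2 : IsIntegral (𝓞 F) (r * Algebra.norm F t) := by
      refine IsIntegral.of_pow (n := 2) (by norm_num) ?_
      rw [e1]
      exact isIntegral_algebraMap
    obtain ⟨c, hc⟩ := IsIntegrallyClosed.isIntegral_iff.1 e2
    refine ⟨c, ?_⟩
    apply IsFractionRing.injective (𝓞 F) F
    rw [← e1, map_pow, hc]
  -- the residue field
  letI : Field (𝓞 F ⧸ w.asIdeal) := Ideal.Quotient.field w.asIdeal
  haveI : Finite (𝓞 F ⧸ w.asIdeal) := w.asIdeal.finiteQuotientOfFreeOfNeBot w.ne_bot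
  have h2k : (2 : 𝓞 F ⧸ w.asIdeal) ≠ 0 := by
    intro h0
    apply h2
    rw [← Ideal.Quotient.eq_zero_iff_mem, map_ofNat]
    exact h0
  have hk : Algebra.norm (𝓞 F ⧸ w.asIdeal) (AdjoinRoot.mk (rd w.asIdeal f) (rd w.asIdeal h)) =
      Ideal.Quotient.mk w.asIdeal m ^ 2 := by
    rw [rd, rd, nrm_red (Ideal.Quotient.mk w.asIdeal) hG.mon h, ← hn, hm, map_pow]
  obtain ⟨s, hs'⟩ := sq_of_norm h2k (hG.mon.map _ : (rd w.asIdeal f).Monic) hirr
    (h := rd w.asIdeal h) ⟨_, by rw [← sq]; exact hk⟩ (nrm_ne hcop)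
  obtain ⟨s, rfl⟩ := Polynomial.map_surjective _ Ideal.Quotient.mk_surjective s
  have hroot : E F θ f = 0 := hG.root
  have hint : IsIntegral ℤ θ := by
    have h1 : IsIntegral (𝓞 F) θ := by
      refine ⟨f, hG.mon, ?_⟩
      have h2 := hroot
      rw [E_apply, fF, aeval_map_algebraMap] at h2
      exact h2
    exact isIntegral_trans (R := ℤ) (A := 𝓞 F) θ h1
  have hd : rd w.asIdeal f ∣ rd w.asIdeal (h - s ^ 2) := by
    rw [rd, rd, Polynomial.map_sub, Polynomial.map_pow]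
    exact hs'
  have key := vE_dvd hint (exists_lo (F := F) hov) hroot hd
  rw [map_sub, map_pow] at key
  have h3 := sq1_of (𝔓 := 𝔓) (y := 1) (s := E F θ s) ht (hth : E F θ h = α * t ^ 2) (by
    rw [one_mul]
    refine lt_of_lt_of_eq key ?_
    exact (hv 𝔓 hov).symm)
  rwa [one_mul] at h3

theorem inert : S_INERT := inert' Pool.Agent.N31.PF.int

end Pool.Agent.L0h51.SP
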