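import Pool.Agent.N438.PF.LB
import Pool.Agent.L0h94.SP.StmA

/-!
# Project SP (helper94), part LBM (helper51): from the lattice to a bad polynomial

Adapted from `Pool.Agent.N438.PF.LB`.
-/

set_option autoImplicit false
set_option linter.all false

open Polynomial IsDedekindDomain Matrix NumberField
open scoped Classical

namespace Pool.Agent.L0h51.SP

open Pool.Agent.N438.PF
open Pool.Agent.N783.PF
open Pool.Agent.L0h94.SP
open Pool.Agent.N352.PJ (Mt Typ dd)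
open Pool.Agent.N783.PQ (chp form Dist Gap Mid Deep eA eB eU uu)

/-- **SP/LBM** -/
theorem t_LBM (h1 : S_TYPM) (h2 : S_MAJ) (h3 : S_CHIM) (h4 : S_SQ) : S_LBM := by
  intro g m F _ _ hg hm
  obtain ⟨C, hC⟩ := h1 g m hm F
  obtain ⟨K0, hK0⟩ : ∃ K0 : ℕ, K0 =
    ((2 * g + 1).factorial * 2 ^ (2 * C * (2 * g + 1))) ^ Module.finrank ℚ F := ⟨_, rfl⟩
  refine ⟨2 * C + 2 * g + 2 + K0, ?_⟩
  obtain ⟨κ, hκ⟩ : ∃ κ, κ = 2 * C + 2 * g + 2 + K0 := ⟨_, rfl⟩
  rw [← hκ]
  intro L _ _ _ f θ B N W S U Z 𝔮 h P hκW hS hG hHt hBN hcg hUS α Λ hα hnorm hLat hdist hns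
  have hB1 : 1 ≤ B := one_le_B hg hG hHt
  have hκN : κ ≤ 2 * N := by
    have t1 : 2 ^ κ ≤ 4 ^ N := le_trans (Nat.le_mul_of_pos_right _ hB1) hBN
    rw [show (4 : ℕ) = 2 ^ 2 by norm_num, ← pow_mul] at t1
    exact (Nat.pow_le_pow_iff_right (by norm_num)).1 t1
  have hBN1 : (B : ℝ) ≤ 4 ^ N := by
    have t1 : B ≤ 4 ^ N := le_trans (Nat.le_mul_of_pos_left _ (by positivity)) hBN
    exact_mod_cast t1
  have hB0 : (1 : ℝ) ≤ B := by exact_mod_cast hB1
  obtain ⟨e, w, heΛ, hli, hTyp, hew⟩ := hC hg B L f θ hG α Λ hHt hα hLat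
  obtain ⟨A, A', hGr, sA, sA', hdet0, hchp, htr, hdet, hmod⟩ :=
    h3 g m F L f θ hG α Λ e hm hHt.tr hα hLat heΛ hli
  obtain ⟨hmaj, hmaj2⟩ := h2 g B F L f θ hg hG hHt
  obtain ⟨x, hx0, hxd⟩ := hdet hnorm
  -- bounds
  have bA' : ∀ i j, Bd (A i j : F) ((2 : ℝ) ^ (2 * (C : ℤ) + w i + w j)) := by
    intro i j σ
    have t1 := hmaj α hα σ 0 (e i) (e j)
    rw [pow_zero, one_mul, mul_zero, pow_zero, one_mul, ← hGr.gA] at t1
    have t2 : HH f θ α (e i) * HH f θ α (e j) ≤ ((2 : ℝ) ^ (2 * (C : ℤ) + w i + w j)) ^ 2 := by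
      refine (mul_le_mul (hew i) (hew j) (HH_nonneg _ _) (by positivity)).trans (le_of_eq ?_)
      rw [← zpow_add₀ (by norm_num), ← four_zpow]
      congr 1
      ring
    exact (sq_le_sq₀ (norm_nonneg _) (by positivity)).1 (t1.trans t2)
  have bA : ∀ i j, Bd (A i j : F) ((2 : ℝ) ^ ((κ : ℤ) + w i + w j)) := by
    intro i j σ
    refine (bA' i j σ).trans (zpow_le_zpow_right₀ (by norm_num) ?_)
    rw [hκ]
    push_cast
    have : (0 : ℤ) ≤ g := by positivity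
    have : (0 : ℤ) ≤ K0 := by positivity
    linarith
  have bB : ∀ i j, Bd (A' i j : F) ((2 : ℝ) ^ (2 * (N : ℤ) + w i + w j)) := by
    intro i j σ
    have t1 := hmaj α hα σ 1 (e i) (e j)
    rw [pow_one, mul_one, ← hGr.gB] at t1
    have t2 : (2 * B : ℝ) ^ 2 * (HH f θ α (e i) * HH f θ α (e j)) ≤
        ((2 * (B : ℝ)) * (2 : ℝ) ^ (2 * (C : ℤ) + w i + w j)) ^ 2 := by
      rw [mul_pow (2 * (B : ℝ)) _]
      refine mul_le_mul_of_nonneg_left ?_ (sq_nonneg _)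
      refine (mul_le_mul (hew i) (hew j) (HH_nonneg _ _) (by positivity)).trans (le_of_eq ?_)
      rw [← zpow_add₀ (by norm_num), ← four_zpow]
      congr 1
      ring
    have t3 := (sq_le_sq₀ (norm_nonneg _) (by positivity)).1 (t1.trans t2)
    refine t3.trans ?_
    have t4 : (2 * (B : ℝ)) * (2 : ℝ) ^ (2 * (C : ℤ)) ≤ (2 : ℝ) ^ (2 * (N : ℤ)) := by
      have t5 : 2 * B * 2 ^ (2 * C) ≤ 2 ^ (2 * N) := by
        calc 2 * B * 2 ^ (2 * C) = 2 ^ (2 * C + 1) * B := by ring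
          _ ≤ 2 ^ κ * B := Nat.mul_le_mul_right _ (Nat.pow_le_pow_right (by norm_num) (by omega))
          _ ≤ 4 ^ N := hBN
          _ = 2 ^ (2 * N) := by rw [show (4 : ℕ) = 2 ^ 2 by norm_num, ← pow_mul]
      exact_mod_cast t5
    calc 2 * (B : ℝ) * (2 : ℝ) ^ (2 * (C : ℤ) + w i + w j)
        = (2 * (B : ℝ)) * (2 : ℝ) ^ (2 * (C : ℤ)) * (2 : ℝ) ^ (w i + w j) := by
          rw [add_assoc, zpow_add₀ (by norm_num)]
          ring
      _ ≤ (2 : ℝ) ^ (2 * (N : ℤ)) * (2 : ℝ) ^ (w i + w j) :=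
          mul_le_mul_of_nonneg_right t4 (by positivity)
      _ = (2 : ℝ) ^ (2 * (N : ℤ) + w i + w j) := by
          rw [add_assoc, ← zpow_add₀ (by norm_num)]
  -- the size of x
  have hxn : Ideal.absNorm (Ideal.span {x}) ≤ K0 := by
    have t1 : Bd ((x ^ 2 : 𝓞 F) : F) (((2 * g + 1).factorial * 2 ^ (2 * C * (2 * g + 1)) : ℕ) : ℝ) := by
      intro σ
      have t2 := det_le' hTyp bA' σ
      rw [hxd] at t2
      have t3 : ‖σ (((-1) ^ g * x ^ 2 : 𝓞 F) : F)‖ = ‖σ ((x ^ 2 : 𝓞 F) : F)‖ := by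
        rcases neg_one_pow_eq_or (𝓞 F) g with t4 | t4
        · rw [t4, one_mul]
        · rw [t4, neg_one_mul]
          simp
      rwa [t3] at t2
    have t2 := norm_le _ t1
    have t3 : Ideal.absNorm (Ideal.span {x ^ 2}) ≤ K0 := by
      rw [hK0]
      exact_mod_cast t2
    refine le_trans ?_ t3
    have t4 : Ideal.span {x ^ 2} = Ideal.span {x} * Ideal.span {x} := by
      rw [Ideal.span_singleton_mul_span_singleton, sq]
    rw [t4, map_mul]
    exact Nat.le_mul_of_pos_left _ (norm_pos hx0)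
  have hnp : ∀ q ∈ S, ∀ 𝔭 : Ideal (𝓞 F), 𝔭.IsPrime → (q : 𝓞 F) ∈ 𝔭 → A.det ∉ 𝔭 := by
    intro q hq 𝔭 hp hqp hcon'
    obtain ⟨hqP, hWq, -⟩ := hS q hq
    rw [hxd] at hcon'
    have hxp : x ∈ 𝔭 := by
      rcases hp.mem_or_mem hcon' with t | t
      · exfalso
        apply hp.ne_top
        rw [Ideal.eq_top_iff_one]
        have t2 := 𝔭.mul_mem_left ((-1) ^ g) t
        rwa [← mul_pow, neg_one_mul, neg_neg, one_pow] at t2
      · exact hp.mem_of_pow_mem 2 t
    have hap : ((Ideal.absNorm (Ideal.span {x}) : ℕ) : 𝓞 F) ∈ 𝔭 :=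
      (Ideal.span_singleton_le_iff_mem 𝔭).2 hxp (Ideal.absNorm_mem _)
    have hqa : q ∣ Ideal.absNorm (Ideal.span {x}) := by
      by_contra t
      have t1 : IsCoprime (q : ℤ) (Ideal.absNorm (Ideal.span {x}) : ℤ) :=
        Nat.isCoprime_iff_coprime.2 ((Nat.Prime.coprime_iff_not_dvd hqP).2 t)
      obtain ⟨a, b, hab⟩ := t1
      apply hp.ne_top
      rw [Ideal.eq_top_iff_one]
      have t2 : (1 : 𝓞 F) = (a : 𝓞 F) * (q : 𝓞 F) +
          (b : 𝓞 F) * ((Ideal.absNorm (Ideal.span {x}) : ℕ) : 𝓞 F) := by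
        have := congrArg (fun z : ℤ => (z : 𝓞 F)) hab
        push_cast at this
        exact this.symm
      rw [t2]
      exact 𝔭.add_mem (𝔭.mul_mem_left _ hqp) (𝔭.mul_mem_left _ hap)
    have t1 := Nat.le_of_dvd (norm_pos hx0) hqa
    omega
  have hnb : ∀ q ∈ S, ∀ 𝔭 : Ideal (𝓞 F), (q : 𝓞 F) ∈ 𝔭 → 𝔭 ≠ ⊥ := by
    intro q hq 𝔭 hqp hb
    rw [hb, Ideal.mem_bot] at hqp
    have : (q : 𝓞 F) ≠ 0 := Nat.cast_ne_zero.2 (hS q hq).1.ne_zero
    exact this hqp
  -- the type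
  refine ⟨irrF hG, w, hTyp, ?_, ?_, A, A', ⟨⟨sA, sA', ⟨x, hx0, hxd, ?_⟩, htr, bA, bB⟩, ?_, ?_⟩,
    hchp⟩
  · -- gaps
    intro i j hij
    by_contra hcon'
    push Not at hcon'
    have hi : (i : ℕ) + 1 < 2 * g + 1 := by
      rw [← hij]
      exact j.2
    obtain ⟨a, ha, b, hb, hab⟩ := Pool.Agent.N530.PQ.gap g F (mF A) (mF A')
      (by
        have := congrArg (fun M : Mt g (𝓞 F) => M.map (algebraMap (𝓞 F) F)) sA
        simpa [Matrix.IsSymm, Matrix.transpose_map] using this)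
      (by
        have := congrArg (fun M : Mt g (𝓞 F) => M.map (algebraMap (𝓞 F) F)) sA'
        simpa [Matrix.IsSymm, Matrix.transpose_map] using this)
      (by
        have t : (mF A).det = algebraMap (𝓞 F) F A.det := (RingHom.map_det _ _).symm
        rw [t]
        intro t0
        apply hdet0
        exact (map_eq_zero_iff _ (FaithfulSMul.algebraMap_injective (𝓞 F) F)).1 t0)
      (by rw [hchp]; exact irrF hG)
      i ⟨2 * g - 1 - i, by omega⟩ (by simp only; omega)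
    have t2 := hTyp.mono ha
    have t3 := hTyp.mono hb
    have t4 : (⟨2 * g - 1 - i, by omega⟩ : Fin (2 * g + 1)) = Fin.rev j := by
      apply Fin.ext
      rw [Fin.val_rev]
      simp only
      omega
    rw [t4, hTyp.anti] at t3
    have z1 : A a b = 0 := zero_of_z (bA a b) (by
      have : (κ : ℤ) ≤ 2 * N := by exact_mod_cast hκN
      linarith)
    have z2 : A' a b = 0 := zero_of_z (bB a b) (by linarith)
    rcases hab with hab | hab
    · apply hab
      change algebraMap (𝓞 F) F (A a b) = 0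
      rw [z1, map_zero]
    · apply hab
      change algebraMap (𝓞 F) F (A' a b) = 0
      rw [z2, map_zero]
  · -- the middle gap or the depth
    left
    intro i hi
    by_contra hcon'
    push Not at hcon'
    apply hns
    have hz : ∀ a b : Fin (2 * g + 1), (a : ℕ) < g → (b : ℕ) < g → A a b = 0 ∧ A' a b = 0 := by
      intro a b ha hb
      have t2 := hTyp.mono (show a ≤ i from Fin.le_def.2 (by omega))
      have t3 := hTyp.mono (show b ≤ i from Fin.le_def.2 (by omega))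
      constructor
      · exact zero_of_z (bA a b) (by
          have : (κ : ℤ) ≤ 2 * N := by exact_mod_cast hκN
          linarith)
      · exact zero_of_z (bB a b) (by linarith)
    refine h4 g F L f θ hg hG α e hα hli ?_ ?_ hnorm
    · intro a b ha hb
      rw [← hGr.gA, (hz a b ha hb).1]
      exact map_zero (algebraMap (𝓞 F) F)
    · intro a b ha hb
      rw [← hGr.gB, (hz a b ha hb).2]
      exact map_zero (algebraMap (𝓞 F) F)
  · -- the norm of x
    refine hxn.trans ?_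
    calc K0 ≤ κ := by omega
      _ ≤ 2 ^ κ := Nat.lt_two_pow_self.le
  · -- congruences
    intro q hq 𝔭 hp hqp
    rw [(hmod 𝔭 hp (hnb q hq 𝔭 hqp) (hnp q hq 𝔭 hp hqp)).1]
    ext1
    rename_i j
    rw [rd, rd, coeff_map, coeff_map, Ideal.Quotient.mk_eq_mk_iff_sub_mem]
    exact (Ideal.span_singleton_le_iff_mem 𝔭).2 hqp (hcg q hq j)
  · -- distinguished
    intro q hq
    obtain ⟨-, -, -, -, -, hp, hqp, -⟩ := hS q (hUS hq)
    rw [← (hmod (𝔮 q) hp (hnb q (hUS hq) _ hqp) (hnp q (hUS hq) _ hp hqp)).2]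
    exact hdist q hq

end Pool.Agent.L0h51.SP
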