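import Pool.Agent.N456.PF.Pb
import Pool.Agent.N490.PF.Pts
import Pool.Agent.L0h94.SP.StmA

/-!
# Project SP (helper94): the trivial bound for the number of pairs
(helper51; from `S_PB0` with the empty set of primes)
-/

set_option autoImplicit false
set_option linter.all false

open Polynomial Matrix NumberField
open scoped Classical

namespace Pool.Agent.L0h51.SP

open Pool.Agent.N352.PJ (Mt Typ dd)
open Pool.Agent.N783.PQ (chp form Dist Gap Mid Deep eA eB eU uu)
open Pool.Agent.N783.PF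
open Pool.Agent.L0h94.SP

theorem pb0p_of (h : S_PB0) : S_PB0P := by
  intro F _ _ g c hg
  obtain ⟨C, hC⟩ := h F g c hg
  refine ⟨C, fun S U Z 𝔮 P N w hw => ?_⟩
  obtain ⟨h1, h2⟩ := hC ∅ 𝔮 P N w hw
  have hsub : {p : Mt g (𝓞 F) × Mt g (𝓞 F) | XP g N c w S U Z 𝔮 P p.1 p.2} ⊆
      {p : Mt g (𝓞 F) × Mt g (𝓞 F) | Xset g N c w ∅ 𝔮 P p.1 p.2} := by
    intro p hp
    exact ⟨hp.box, fun q hq => absurd hq (Finset.notMem_empty q),
      fun q hq => absurd hq (Finset.notMem_empty q)⟩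
  exact ⟨h1.subset hsub, (Nat.mul_le_mul_left _ (Set.ncard_le_ncard hsub h1)).trans h2⟩

theorem t_PB0P : S_PB0P := pb0p_of (Pool.Agent.N456.PF.pb0 Pool.Agent.N490.PF.pts)

end Pool.Agent.L0h51.SP
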