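import Pool.Agent.L0h94.SP.StmB

/-!
# Project SP (helper94), part RES2 (helper51): a double root over a finite field
-/

set_option autoImplicit false
set_option linter.all false

open Polynomial IsDedekindDomain NumberField
open scoped Classical

namespace Pool.Agent.L0h51.SP

open Pool.Agent.L0h94.SP
open Finset

theorem quad_sum {F : Type} [Field F] [Fintype F] (hF : ringChar F ≠ 2) (e : F)
    (he : e ≠ 0) : ∑ u : F, quadraticChar F (u ^ 2 - e) = -1 := by
  have h2 : (2 : F) ≠ 0 := Ring.two_ne_zero hF
  have h1 : ∀ u : F, quadraticChar F (u ^ 2 - e) =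
      ((univ.filter (fun v : F => v ^ 2 = u ^ 2 - e)).card : ℤ) - 1 := by
    intro u
    have h := quadraticChar_card_sqrts hF (u ^ 2 - e)
    rw [eq_sub_iff_add_eq, ← h, Set.toFinset_ofPred]
  have h3 : (univ.filter (fun p : F × F => p.2 ^ 2 = p.1 ^ 2 - e)).card =
      (univ.filter (fun s : F => s ≠ 0)).card := by
    refine Finset.card_nbij' (fun p => p.1 - p.2) (fun s => ((s + e / s) / 2, (e / s - s) / 2))
      ?_ ?_ ?_ ?_
    · intro p hp
      rw [mem_coe, mem_filter] at hp ⊢
      refine ⟨mem_univ _, fun h => he ?_⟩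
      have h4 : e = (p.1 - p.2) * (p.1 + p.2) := by linear_combination hp.2
      have h' : p.1 - p.2 = 0 := h
      rw [h4, h', zero_mul]
    · intro s hs
      rw [mem_coe, mem_filter] at hs ⊢
      refine ⟨mem_univ _, ?_⟩
      have := hs.2
      field_simp
      ring
    · intro p hp
      rw [mem_coe, mem_filter] at hp
      have h4 : e = (p.1 - p.2) * (p.1 + p.2) := by linear_combination hp.2
      have h5 : p.1 - p.2 ≠ 0 := fun h => he (by rw [h4, h, zero_mul])
      have h6 : e / (p.1 - p.2) = p.1 + p.2 := by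
        rw [div_eq_iff h5, h4]; ring
      refine Prod.ext ?_ ?_
      · show (p.1 - p.2 + e / (p.1 - p.2)) / 2 = p.1
        rw [h6]; field_simp; ring
      · show (e / (p.1 - p.2) - (p.1 - p.2)) / 2 = p.2
        rw [h6]; field_simp; ring
    · intro s hs
      show (s + e / s) / 2 - (e / s - s) / 2 = s
      rw [mem_coe, mem_filter] at hs
      have := hs.2
      field_simp
      ring
  have h4 : ∑ u : F, ((univ.filter (fun v : F => v ^ 2 = u ^ 2 - e)).card : ℤ) =
      ((univ.filter (fun p : F × F => p.2 ^ 2 = p.1 ^ 2 - e)).card : ℤ) := by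
    rw [Finset.card_filter]
    push_cast
    rw [← Finset.univ_product_univ, Finset.sum_product]
    refine sum_congr rfl fun u _ => ?_
    rw [Finset.card_filter]
    push_cast
    rfl
  have h5 : ((univ.filter (fun s : F => s ≠ 0)).card : ℤ) = Fintype.card F - 1 := by
    have := Finset.card_filter_add_card_filter_not (s := (univ : Finset F)) (fun s : F => s = 0)
    rw [Finset.filter_eq' univ (0 : F), if_pos (mem_univ _), card_singleton, card_univ] at this
    rw [← this]
    push_cast
    ring
  rw [sum_congr rfl fun u _ => h1 u, sum_sub_distrib, h4, h3, h5, sum_const, card_univ, nsmul_eq_mul]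
  ring

theorem quad_sum' {F : Type} [Field F] [Fintype F] (hF : ringChar F ≠ 2) (b c : F)
    (he : b ^ 2 - 4 * c ≠ 0) : ∑ u : F, quadraticChar F (u ^ 2 + b * u + c) = -1 := by
  have h2 : (2 : F) ≠ 0 := Ring.two_ne_zero hF
  have h4 : (4 : F) ≠ 0 := by
    have : (4 : F) = 2 * 2 := by norm_num
    rw [this]; exact mul_ne_zero h2 h2
  have h := quad_sum hF ((b ^ 2 - 4 * c) / 4) (div_ne_zero he h4)
  rw [← h]
  refine Fintype.sum_equiv (Equiv.addRight (b / 2)) _ _ fun u => ?_
  congr 1
  show u ^ 2 + b * u + c = (u + b / 2) ^ 2 - (b ^ 2 - 4 * c) / 4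
  field_simp
  ring

/-- The sum over a product of two different linear factors. -/
theorem two_sum {F : Type} [Field F] [Fintype F] (hF : ringChar F ≠ 2) (e n : F)
    (he : e ≠ n) : ∑ u : F, quadraticChar F ((u - e) * (u - n)) = -1 := by
  rw [← quad_sum' hF (-(e + n)) (e * n) (by
    have h1 : (-(e + n)) ^ 2 - 4 * (e * n) = (e - n) ^ 2 := by ring
    rw [h1]
    exact pow_ne_zero 2 (sub_ne_zero.2 he))]
  refine sum_congr rfl fun u _ => ?_
  congr 1
  ring

theorem one_sum {F : Type} [Field F] [Fintype F] (hF : ringChar F ≠ 2) (e : F) :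
    ∑ u : F, quadraticChar F (u - e) = 0 := by
  rw [← quadraticChar_sum_zero hF]
  exact Fintype.sum_equiv (Equiv.subRight e) _ _ fun u => rfl

theorem ringChar_ne {F : Type} [Field F] [Finite F] (h2 : (2 : F) ≠ 0) : ringChar F ≠ 2 := by
  intro h
  haveI : CharP F 2 := by rw [← h]; exact ringChar.charP F
  exact h2 (by exact_mod_cast CharP.cast_eq_zero F 2)

theorem sq_iff {F : Type} [Field F] [Fintype F] {a : F} (ha : a ≠ 0) :
    IsSquare a ↔ quadraticChar F a = 1 := (quadraticChar_one_iff_isSquare ha).symm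

theorem pm {F : Type} [Field F] [Fintype F] {a : F} (ha : a ≠ 0) :
    quadraticChar F a = 1 ∨ quadraticChar F a = -1 := quadraticChar_dichotomy ha

/-- **SP/RES2** -/
theorem t_RES2 : S_RES2 := by
  intro k _ _ h2 n e a b hen ha hb hsb
  haveI : Fintype k := Fintype.ofFinite k
  have hF : ringChar k ≠ 2 := ringChar_ne h2
  by_contra hcon
  rw [not_or, not_or] at hcon
  obtain ⟨c1, c2, c3⟩ := hcon
  have hen' : e - n ≠ 0 := sub_ne_zero.2 hen
  have a1 : quadraticChar k a = -1 := by
    rcases pm ha with h | h
    · exact absurd ((sq_iff ha).2 h) c1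
    · exact h
  have b1 : quadraticChar k b = 1 := (sq_iff hb).1 hsb
  have e1 : quadraticChar k (e - n) = 1 := by
    rcases pm hen' with h | h
    · exact h
    · refine absurd ((sq_iff (mul_ne_zero hen' ha)).2 ?_) c3
      rw [map_mul, h, a1]
      norm_num
  have key : ∀ x : k, x ≠ n → (1 + quadraticChar k (x - e)) * (1 - quadraticChar k (x - n)) = 0 := by
    intro x hx
    have hxn : x - n ≠ 0 := sub_ne_zero.2 hx
    by_cases hxe : x = e
    · rw [hxe, e1]
      ring
    · have hxe' : x - e ≠ 0 := sub_ne_zero.2 hxe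
      rcases pm hxe' with h | h
      · rcases pm hxn with h' | h'
        · rw [h']; ring
        · refine absurd ⟨x, hx, hxe, (sq_iff (mul_ne_zero hxe' hb)).2 ?_,
            (sq_iff (mul_ne_zero hxn ha)).2 ?_⟩ c2
          · rw [map_mul, h, b1]; norm_num
          · rw [map_mul, h', a1]; norm_num
      · rw [h]; ring
  have s1 : ∑ x : k, (1 + quadraticChar k (x - e)) * (1 - quadraticChar k (x - n)) =
      (Fintype.card k : ℤ) + 1 := by
    have h : ∀ x : k, (1 + quadraticChar k (x - e)) * (1 - quadraticChar k (x - n)) =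
        1 + quadraticChar k (x - e) - quadraticChar k (x - n) -
          quadraticChar k ((x - e) * (x - n)) := by
      intro x
      rw [map_mul]
      ring
    rw [sum_congr rfl fun x _ => h x, sum_sub_distrib, sum_sub_distrib, sum_add_distrib,
      two_sum hF e n hen, one_sum hF, one_sum hF, sum_const, card_univ]
    simp
  have s2 : ∑ x : k, (1 + quadraticChar k (x - e)) * (1 - quadraticChar k (x - n)) =
      (1 + quadraticChar k (n - e)) := by
    rw [Finset.sum_eq_single n (fun x _ hx => key x hx) (fun h => absurd (mem_univ _) h)]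
    rw [sub_self, quadraticChar_zero]
    ring
  have s3 : 1 < Fintype.card k := Fintype.one_lt_card
  have s4 : quadraticChar k (n - e) ≤ 1 := by
    rcases pm (sub_ne_zero.2 (Ne.symm hen)) with h | h <;> rw [h] <;> norm_num
  rw [s1] at s2
  have s5 : (1 : ℤ) < Fintype.card k := by exact_mod_cast s3
  linarith

end Pool.Agent.L0h51.SP
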