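import Pool.Agent.L0h94.SP.StmB
import Pool.Agent.N615.JB.Alg0
import Pool.Agent.L0h51.SP.RES2

/-!
# Project SP (helper94), part RES1 (helper51): unit classes over a finite field come from points

Write `f = ∏ p` with irreducible `p`; `h` is a square modulo `p` iff the norm of its class is a
square. For signs `ε` with product `1` the sum over `x` of `∏ (1 + ε χ(p x))` is
`|k| + 1 + ∑ χ(f x) > 0`, and every nonzero term gives a point: an ordinary one for `f x ≠ 0`, a
point of order 2 for `f x = 0`.
-/

set_option autoImplicit false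
set_option linter.all false

open Polynomial IsDedekindDomain NumberField
open scoped Classical

namespace Pool.Agent.L0h51.SP

open Pool.Agent.L0h94.SP
open Pool.Agent.N615.JB (nrm0)
open Finset

section norm

variable {k : Type} [Field k]

theorem nrm_mul {g₁ g₂ : k[X]} (h₁ : g₁.Monic) (h₂ : g₂.Monic) (h : k[X]) :
    Algebra.norm k (AdjoinRoot.mk (g₁ * g₂) h) =
      Algebra.norm k (AdjoinRoot.mk g₁ h) * Algebra.norm k (AdjoinRoot.mk g₂ h) := by
  apply (algebraMap k (AlgebraicClosure k)).injective
  have hne : g₁.map (algebraMap k (AlgebraicClosure k)) *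
      g₂.map (algebraMap k (AlgebraicClosure k)) ≠ 0 :=
    mul_ne_zero (h₁.map _).ne_zero (h₂.map _).ne_zero
  rw [map_mul, nrm0 k (AlgebraicClosure k) _ h (h₁.mul h₂) (IsAlgClosed.splits _),
    nrm0 k (AlgebraicClosure k) _ h h₁ (IsAlgClosed.splits _),
    nrm0 k (AlgebraicClosure k) _ h h₂ (IsAlgClosed.splits _), Polynomial.map_mul,
    roots_mul hne, Multiset.map_add, Multiset.prod_add]

theorem nrm_lin (e : k) (h : k[X]) : Algebra.norm k (AdjoinRoot.mk (X - C e) h) = h.eval e := by
  have h1 : ((X - C e : k[X]).map (algebraMap k k)).Splits := by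
    rw [Polynomial.map_sub, map_X, map_C]
    exact Splits.X_sub_C _
  have h2 := nrm0 k k (X - C e) h (monic_X_sub_C e) h1
  rw [Polynomial.map_sub, map_X, map_C, roots_X_sub_C] at h2
  simpa using h2

theorem nrm_pt {g : k[X]} (hg : g.Monic) (x : k) :
    Algebra.norm k (AdjoinRoot.mk g (C x - X)) = g.eval x := by
  apply (algebraMap k (AlgebraicClosure k)).injective
  have hs : (g.map (algebraMap k (AlgebraicClosure k))).Splits := IsAlgClosed.splits _
  rw [nrm0 k (AlgebraicClosure k) _ _ hg hs, ← eval_map_apply,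
    hs.eval_eq_prod_roots_of_monic (hg.map _)]
  congr 1
  refine Multiset.map_congr rfl fun e _ => ?_
  rw [map_sub, aeval_C, aeval_X]

theorem nrm_ne {p h : k[X]} (hc : IsCoprime h p) :
    Algebra.norm k (AdjoinRoot.mk p h) ≠ 0 := by
  obtain ⟨u, v, h1⟩ := hc
  have h2 : AdjoinRoot.mk p u * AdjoinRoot.mk p h = 1 := by
    rw [← map_mul, ← map_one (AdjoinRoot.mk p), AdjoinRoot.mk_eq_mk]
    refine ⟨-v, ?_⟩
    linear_combination h1
  have h3 := congrArg (Algebra.norm k) h2
  rw [map_mul, map_one] at h3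
  intro h4
  rw [h4, mul_zero] at h3
  exact zero_ne_one h3

theorem crt {p q h : k[X]} (hpq : IsCoprime p q) (h1 : ∃ s : k[X], p ∣ h - s ^ 2)
    (h2 : ∃ s : k[X], q ∣ h - s ^ 2) : ∃ s : k[X], p * q ∣ h - s ^ 2 := by
  obtain ⟨s1, a1⟩ := h1
  obtain ⟨s2, a2⟩ := h2
  obtain ⟨u, v, huv⟩ := id hpq
  refine ⟨s1 * (v * q) + s2 * (u * p), hpq.mul_dvd ?_ ?_⟩
  · have e : s1 * (v * q) + s2 * (u * p) = s1 + p * (u * (s2 - s1)) := by
      linear_combination s1 * huv
    have e2 : h - (s1 + p * (u * (s2 - s1))) ^ 2 =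
        (h - s1 ^ 2) - p * ((u * (s2 - s1)) * (2 * s1 + p * (u * (s2 - s1)))) := by ring
    rw [e, e2]
    exact dvd_sub a1 (Dvd.intro _ rfl)
  · have e : s1 * (v * q) + s2 * (u * p) = s2 + q * (v * (s1 - s2)) := by
      linear_combination s2 * huv
    have e2 : h - (s2 + q * (v * (s1 - s2))) ^ 2 =
        (h - s2 ^ 2) - q * ((v * (s1 - s2)) * (2 * s2 + q * (v * (s1 - s2)))) := by ring
    rw [e, e2]
    exact dvd_sub a2 (Dvd.intro _ rfl)

theorem sq_lin {e : k} {h : k[X]} (hs : IsSquare (h.eval e)) : ∃ s : k[X], X - C e ∣ h - s ^ 2 := by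
  obtain ⟨r, hr⟩ := hs
  refine ⟨C r, ?_⟩
  rw [dvd_iff_isRoot, IsRoot.def, eval_sub, eval_pow, eval_C, hr]
  ring

end norm

section fin

variable {k : Type} [Field k] [Finite k]

/-- An element of a finite extension of a finite field with square norm is a square. -/
theorem sq_of_norm (h2 : (2 : k) ≠ 0) {p : k[X]} (hp : p.Monic) (hi : Irreducible p) {h : k[X]}
    (hN : IsSquare (Algebra.norm k (AdjoinRoot.mk p h)))
    (hN0 : Algebra.norm k (AdjoinRoot.mk p h) ≠ 0) : ∃ s : k[X], p ∣ h - s ^ 2 := by
  haveI : Fact (Irreducible p) := ⟨hi⟩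
  haveI : Fintype k := Fintype.ofFinite k
  haveI : Module.Finite k (AdjoinRoot p) := hp.finite_adjoinRoot
  haveI : Finite (AdjoinRoot p) := Module.finite_of_finite k
  haveI : Fintype (AdjoinRoot p) := Fintype.ofFinite _
  have hsq : IsSquare (AdjoinRoot.mk p h) := by
    by_contra hns
    obtain ⟨c, hc⟩ := FiniteField.exists_nonsquare (F := k) (ringChar_ne h2)
    obtain ⟨z, hz⟩ := FiniteField.norm_surjective k (AdjoinRoot p) c
    by_cases hzs : IsSquare z
    · obtain ⟨w, hw⟩ := hzs
      exact hc ⟨Algebra.norm k w, by rw [← hz, hw, map_mul]⟩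
    · have a1 : quadraticChar (AdjoinRoot p) (z * AdjoinRoot.mk p h) = 1 := by
        rw [map_mul, quadraticChar_neg_one_iff_not_isSquare.2 hzs,
          quadraticChar_neg_one_iff_not_isSquare.2 hns]
        norm_num
      have a2 : z * AdjoinRoot.mk p h ≠ 0 := by
        intro h0
        rw [h0, quadraticChar_zero] at a1
        exact zero_ne_one a1
      obtain ⟨w, hw⟩ := (quadraticChar_one_iff_isSquare a2).1 a1
      obtain ⟨m, hm⟩ := hN
      have hm0 : m ≠ 0 := by
        rintro rfl
        exact hN0 (by rw [hm, mul_zero])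
      have a3 := congrArg (Algebra.norm k) hw
      rw [map_mul, map_mul, hz, hm] at a3
      refine hc ⟨Algebra.norm k w / m, ?_⟩
      field_simp
      linear_combination a3
  obtain ⟨w, hw⟩ := hsq
  obtain ⟨s, rfl⟩ := AdjoinRoot.mk_surjective w
  refine ⟨s, ?_⟩
  rw [← AdjoinRoot.mk_eq_mk, hw, map_pow, sq]

end fin

section cnt

variable {k : Type} [Field k] [Fintype k]

/-- The number of affine points of `y ^ 2 = φ(x)` is not negative. -/
theorem cnt_nonneg (φ : k → k) : 0 ≤ (Fintype.card k : ℤ) + ∑ x : k, quadraticChar k (φ x) := by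
  have h1 : (Fintype.card k : ℤ) + ∑ x : k, quadraticChar k (φ x) =
      ∑ x : k, (1 + quadraticChar k (φ x)) := by
    rw [sum_add_distrib, sum_const, card_univ]
    simp
  rw [h1]
  refine sum_nonneg fun x _ => ?_
  by_cases h : φ x = 0
  · rw [h, quadraticChar_zero]
    norm_num
  · rcases pm h with h | h <;> rw [h] <;> norm_num

/-- The sum of the quadratic character over the values of an irreducible quadratic polynomial. -/
theorem irr_sum (h2 : (2 : k) ≠ 0) {g : k[X]} (hg : g.Monic) (hd : g.natDegree = 2)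
    (hi : Irreducible g) : ∑ x : k, quadraticChar k (g.eval x) = -1 := by
  have hev : ∀ x : k, g.eval x = x ^ 2 + g.coeff 1 * x + g.coeff 0 := by
    intro x
    have h1 : g.coeff 2 = 1 := by
      rw [← hd]
      exact hg
    rw [eval_eq_sum_range, hd, Finset.sum_range_succ, Finset.sum_range_succ,
      Finset.sum_range_succ, Finset.sum_range_zero, h1]
    ring
  rw [sum_congr rfl fun x _ => by rw [hev x]]
  refine quad_sum' (ringChar_ne h2) _ _ fun h0 => ?_
  have h3 : g.IsRoot (-(g.coeff 1) / 2) := by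
    rw [IsRoot.def, hev]
    have h4 : (4 : k) ≠ 0 := by
      have : (4 : k) = 2 * 2 := by norm_num
      rw [this]
      exact mul_ne_zero h2 h2
    have h5 : (-(g.coeff 1) / 2) ^ 2 + g.coeff 1 * (-(g.coeff 1) / 2) + g.coeff 0 =
        -((g.coeff 1) ^ 2 - 4 * g.coeff 0) / 4 := by
      field_simp
      ring
    rw [h5, h0, neg_zero, zero_div]
  have h6 := degree_eq_one_of_irreducible_of_root hi h3
  rw [degree_eq_natDegree hi.ne_zero, hd] at h6
  norm_num at h6

/-- Two factors. -/
theorem pick2 (h2 : (2 : k) ≠ 0) {g : k[X]} (hg : g.Monic) (hd : g.natDegree = 2)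
    (hi : Irreducible g) (e : k) : ∃ x : k, quadraticChar k (x - e) ≠ 1 ∧
      quadraticChar k (g.eval x) ≠ 1 := by
  by_contra hcon
  push Not at hcon
  have h1 : ∀ x : k, (1 - quadraticChar k (x - e)) * (1 - quadraticChar k (g.eval x)) =
      1 - quadraticChar k (x - e) - quadraticChar k (g.eval x) +
        quadraticChar k ((x - e) * g.eval x) := by
    intro x
    rw [map_mul]
    ring
  have h3 : ∑ x : k, (1 - quadraticChar k (x - e)) * (1 - quadraticChar k (g.eval x)) = 0 := by
    refine sum_eq_zero fun x _ => ?_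
    by_cases hx : quadraticChar k (x - e) = 1
    · rw [hx]
      ring
    · rw [hcon x hx]
      ring
  have h4 := cnt_nonneg fun x : k => (x - e) * g.eval x
  rw [sum_congr rfl fun x _ => h1 x, sum_add_distrib, sum_sub_distrib, sum_sub_distrib,
    one_sum (ringChar_ne h2), irr_sum h2 hg hd hi, sum_const, card_univ] at h3
  simp only [nsmul_eq_mul, mul_one] at h3
  linarith

/-- Three linear factors. -/
theorem pick3 (h2 : (2 : k) ≠ 0) {i j l : k} (hij : i ≠ j) (hil : i ≠ l) (hjl : j ≠ l) (a b c : ℤ)
    (ha : a = 1 ∨ a = -1) (hb : b = 1 ∨ b = -1) (hc : c = 1 ∨ c = -1) (habc : a * b * c = 1)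
    (hne : ¬ (a = 1 ∧ b = 1 ∧ c = 1)) : ∃ x : k, quadraticChar k (x - i) ≠ -a ∧
      quadraticChar k (x - j) ≠ -b ∧ quadraticChar k (x - l) ≠ -c := by
  by_contra hcon
  push Not at hcon
  have hF := ringChar_ne h2
  have h1 : ∀ x : k, (1 + a * quadraticChar k (x - i)) * (1 + b * quadraticChar k (x - j)) *
      (1 + c * quadraticChar k (x - l)) =
      1 + a * quadraticChar k (x - i) + b * quadraticChar k (x - j) + c * quadraticChar k (x - l) +
        a * b * quadraticChar k ((x - i) * (x - j)) + a * c * quadraticChar k ((x - i) * (x - l)) +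
        b * c * quadraticChar k ((x - j) * (x - l)) +
        quadraticChar k ((x - i) * (x - j) * (x - l)) := by
    intro x
    simp only [map_mul]
    linear_combination (quadraticChar k (x - i) * quadraticChar k (x - j) *
      quadraticChar k (x - l)) * habc
  have h3 : ∑ x : k, (1 + a * quadraticChar k (x - i)) * (1 + b * quadraticChar k (x - j)) *
      (1 + c * quadraticChar k (x - l)) = 0 := by
    refine sum_eq_zero fun x _ => ?_
    by_cases hx : quadraticChar k (x - i) = -a
    · rw [hx]
      rcases ha with rfl | rfl <;> ring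
    · by_cases hy : quadraticChar k (x - j) = -b
      · rw [hy]
        rcases hb with rfl | rfl <;> ring
      · rw [hcon x hx hy]
        rcases hc with rfl | rfl <;> ring
  have h4 := cnt_nonneg fun x : k => (x - i) * (x - j) * (x - l)
  rw [sum_congr rfl fun x _ => h1 x, sum_add_distrib, sum_add_distrib, sum_add_distrib,
    sum_add_distrib, sum_add_distrib, sum_add_distrib, sum_add_distrib, ← mul_sum, ← mul_sum,
    ← mul_sum, ← mul_sum, ← mul_sum, ← mul_sum, one_sum hF, one_sum hF, one_sum hF,
    two_sum hF i j hij, two_sum hF i l hil, two_sum hF j l hjl, sum_const, card_univ] at h3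
  simp only [nsmul_eq_mul, mul_one] at h3
  rcases ha with rfl | rfl <;> rcases hb with rfl | rfl <;> rcases hc with rfl | rfl <;>
    first
    | linarith
    | exact absurd ⟨rfl, rfl, rfl⟩ hne

end cnt

/-- The conclusion. -/
def Con {k : Type} [Field k] (f h : k[X]) : Prop :=
  (∃ s : k[X], f ∣ h - s ^ 2) ∨
  (∃ (x : k) (s : k[X]), f.eval x ≠ 0 ∧ f ∣ h * (C x - X) - s ^ 2) ∨
  ∃ (e : k) (s : k[X]), f.eval e = 0 ∧ f ∣ h * (C e - X + f /ₘ (X - C e)) - s ^ 2

section main

variable {k : Type} [Field k] [Finite k]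

theorem div_root {f g : k[X]} {e : k} (h : f = (X - C e) * g) : f /ₘ (X - C e) = g := by
  rw [h, mul_divByMonic_cancel_left _ (monic_X_sub_C e)]

/-- One root and an irreducible quadratic factor. -/
theorem con2 (h2 : (2 : k) ≠ 0) {g h : k[X]} {e : k} (hg : g.Monic) (hd : g.natDegree = 2)
    (hi : Irreducible g) (hcg : IsCoprime (X - C e) g) (hc : IsCoprime h ((X - C e) * g))
    (hN : IsSquare (Algebra.norm k (AdjoinRoot.mk ((X - C e) * g) h))) :
    Con ((X - C e) * g) h := by
  haveI : Fintype k := Fintype.ofFinite k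
  have hg2 : ∀ x : k, g.eval x ≠ 0 := by
    intro x hx
    have h6 := degree_eq_one_of_irreducible_of_root hi (show g.IsRoot x from hx)
    rw [degree_eq_natDegree hi.ne_zero, hd] at h6
    norm_num at h6
  rw [nrm_mul (monic_X_sub_C e) hg, nrm_lin] at hN
  have ne2 : Algebra.norm k (AdjoinRoot.mk g h) ≠ 0 := nrm_ne (hc.of_mul_right_right)
  have ne1 : h.eval e ≠ 0 := by
    rw [← nrm_lin]
    exact nrm_ne (hc.of_mul_right_left)
  have hχ := (sq_iff (mul_ne_zero ne1 ne2)).1 hN
  rw [map_mul] at hχ
  rcases pm ne1 with a1 | a1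
  · left
    have b1 : quadraticChar k (Algebra.norm k (AdjoinRoot.mk g h)) = 1 := by
      rw [a1, one_mul] at hχ
      exact hχ
    exact crt hcg (sq_lin ((sq_iff ne1).2 a1)) (sq_of_norm h2 hg hi ((sq_iff ne2).2 b1) ne2)
  · have b1 : quadraticChar k (Algebra.norm k (AdjoinRoot.mk g h)) = -1 := by
      rw [a1] at hχ
      linarith
    right
    obtain ⟨x, hx1, hx2⟩ := pick2 h2 hg hd hi e
    have c2 : quadraticChar k (g.eval x) = -1 := by
      rcases pm (hg2 x) with h | h
      · exact absurd h hx2
      · exact h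
    by_cases hxe : x = e
    · right
      subst hxe
      have d1 : (h * (C x - X + g)).eval x = h.eval x * g.eval x := by
        simp
      have d2 : Algebra.norm k (AdjoinRoot.mk g (h * (C x - X + g))) =
          Algebra.norm k (AdjoinRoot.mk g h) * g.eval x := by
        have : AdjoinRoot.mk g (h * (C x - X + g)) =
            AdjoinRoot.mk g h * AdjoinRoot.mk g (C x - X) := by
          rw [map_mul, map_add, AdjoinRoot.mk_self, add_zero]
        rw [this, map_mul, nrm_pt hg]
      obtain ⟨s, hs⟩ := crt hcg (h := h * (C x - X + g))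
        (sq_lin (by
          rw [d1]
          refine (sq_iff (mul_ne_zero ne1 (hg2 x))).2 ?_
          rw [map_mul, a1, c2]
          norm_num))
        (sq_of_norm h2 hg hi (by
          rw [d2]
          refine (sq_iff (mul_ne_zero ne2 (hg2 x))).2 ?_
          rw [map_mul, b1, c2]
          norm_num) (by
          rw [d2]
          exact mul_ne_zero ne2 (hg2 x)))
      refine ⟨x, s, by simp, ?_⟩
      rw [div_root rfl]
      exact hs
    · left
      have hxe' : x - e ≠ 0 := sub_ne_zero.2 hxe
      have c1 : quadraticChar k (x - e) = -1 := by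
        rcases pm hxe' with h | h
        · exact absurd h hx1
        · exact h
      have d1 : (h * (C x - X)).eval e = h.eval e * (x - e) := by
        simp
      have d2 : Algebra.norm k (AdjoinRoot.mk g (h * (C x - X))) =
          Algebra.norm k (AdjoinRoot.mk g h) * g.eval x := by
        rw [map_mul, map_mul, nrm_pt hg]
      obtain ⟨s, hs⟩ := crt hcg (h := h * (C x - X))
        (sq_lin (by
          rw [d1]
          refine (sq_iff (mul_ne_zero ne1 hxe')).2 ?_
          rw [map_mul, a1, c1]
          norm_num))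
        (sq_of_norm h2 hg hi (by
          rw [d2]
          refine (sq_iff (mul_ne_zero ne2 (hg2 x))).2 ?_
          rw [map_mul, b1, c2]
          norm_num) (by
          rw [d2]
          exact mul_ne_zero ne2 (hg2 x)))
      refine ⟨x, s, ?_, hs⟩
      rw [eval_mul, eval_sub, eval_X, eval_C]
      exact mul_ne_zero hxe' (hg2 x)

theorem cop {i j : k} (h : i ≠ j) : IsCoprime (X - C i : k[X]) (X - C j) :=
  isCoprime_X_sub_C_of_isUnit_sub (sub_ne_zero.2 h).isUnit

theorem sq3 {i j l : k} (hij : i ≠ j) (hil : i ≠ l) (hjl : j ≠ l) {h : k[X]}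
    (h1 : IsSquare (h.eval i)) (h2 : IsSquare (h.eval j)) (h3 : IsSquare (h.eval l)) :
    ∃ s : k[X], (X - C i) * ((X - C j) * (X - C l)) ∣ h - s ^ 2 :=
  crt ((cop hij).mul_right (cop hil)) (sq_lin h1) (crt (cop hjl) (sq_lin h2) (sq_lin h3))

/-- A point of order 2. -/
theorem con_tor [Fintype k] {f h : k[X]} {i j l : k} (hij : i ≠ j) (hil : i ≠ l) (hjl : j ≠ l)
    (hf : f = (X - C i) * ((X - C j) * (X - C l))) (h1 : h.eval i ≠ 0) (h2 : h.eval j ≠ 0)
    (h3 : h.eval l ≠ 0) (hp : quadraticChar k (h.eval i) * quadraticChar k (h.eval j) *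
      quadraticChar k (h.eval l) = 1) (hj : quadraticChar k (i - j) = quadraticChar k (h.eval j))
    (hl : quadraticChar k (i - l) = quadraticChar k (h.eval l)) : Con f h := by
  right
  right
  have nij : i - j ≠ 0 := sub_ne_zero.2 hij
  have nil : i - l ≠ 0 := sub_ne_zero.2 hil
  obtain ⟨s, hs⟩ := sq3 hij hil hjl (h := h * (C i - X + (X - C j) * (X - C l)))
    (by
      have : (h * (C i - X + (X - C j) * (X - C l))).eval i = h.eval i * ((i - j) * (i - l)) := by
        simp
      rw [this]
      refine (sq_iff (mul_ne_zero h1 (mul_ne_zero nij nil))).2 ?_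
      rw [map_mul, map_mul, hj, hl, ← mul_assoc]
      exact hp)
    (by
      have : (h * (C i - X + (X - C j) * (X - C l))).eval j = h.eval j * (i - j) := by
        simp
      rw [this]
      refine (sq_iff (mul_ne_zero h2 nij)).2 ?_
      rw [map_mul, hj]
      rcases pm h2 with h | h <;> rw [h] <;> norm_num)
    (by
      have : (h * (C i - X + (X - C j) * (X - C l))).eval l = h.eval l * (i - l) := by
        simp
      rw [this]
      refine (sq_iff (mul_ne_zero h3 nil)).2 ?_
      rw [map_mul, hl]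
      rcases pm h3 with h | h <;> rw [h] <;> norm_num)
  refine ⟨i, s, by rw [hf]; simp, ?_⟩
  rw [div_root hf, hf]
  exact hs

/-- Three roots. -/
theorem con3 (h2 : (2 : k) ≠ 0) {h : k[X]} {i j l : k} (hij : i ≠ j) (hil : i ≠ l) (hjl : j ≠ l)
    (hc : IsCoprime h ((X - C i) * ((X - C j) * (X - C l))))
    (hN : IsSquare (Algebra.norm k (AdjoinRoot.mk ((X - C i) * ((X - C j) * (X - C l))) h))) :
    Con ((X - C i) * ((X - C j) * (X - C l))) h := by
  haveI : Fintype k := Fintype.ofFinite k
  rw [nrm_mul (monic_X_sub_C i) ((monic_X_sub_C j).mul (monic_X_sub_C l)),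
    nrm_mul (monic_X_sub_C j) (monic_X_sub_C l), nrm_lin, nrm_lin, nrm_lin] at hN
  have n1 : h.eval i ≠ 0 := by
    rw [← nrm_lin]
    exact nrm_ne (hc.of_mul_right_left)
  have n2 : h.eval j ≠ 0 := by
    rw [← nrm_lin]
    exact nrm_ne (hc.of_mul_right_right.of_mul_right_left)
  have n3 : h.eval l ≠ 0 := by
    rw [← nrm_lin]
    exact nrm_ne (hc.of_mul_right_right.of_mul_right_right)
  have hp := (sq_iff (mul_ne_zero n1 (mul_ne_zero n2 n3))).1 hN
  rw [map_mul, map_mul, ← mul_assoc] at hp
  by_cases hall : quadraticChar k (h.eval i) = 1 ∧ quadraticChar k (h.eval j) = 1 ∧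
      quadraticChar k (h.eval l) = 1
  · left
    exact sq3 hij hil hjl ((sq_iff n1).2 hall.1) ((sq_iff n2).2 hall.2.1)
      ((sq_iff n3).2 hall.2.2)
  · obtain ⟨x, hx1, hx2, hx3⟩ := pick3 h2 hij hil hjl _ _ _ (pm n1) (pm n2) (pm n3) hp hall
    have key : ∀ y z : k, y ≠ 0 → z ≠ 0 → quadraticChar k y ≠ -quadraticChar k z →
        quadraticChar k y = quadraticChar k z := by
      intro y z hy hz hyz
      rcases pm hy with h | h <;> rcases pm hz with h' | h' <;> rw [h, h'] at hyz ⊢ <;>
        norm_num at hyz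
    by_cases e1 : x = i
    · subst e1
      exact con_tor hij hil hjl rfl n1 n2 n3 hp (key _ _ (sub_ne_zero.2 hij) n2 hx2)
        (key _ _ (sub_ne_zero.2 hil) n3 hx3)
    · by_cases e2 : x = j
      · subst e2
        refine con_tor (Ne.symm hij) hjl hil ?_ n2 n1 n3 ?_
          (key _ _ (sub_ne_zero.2 (Ne.symm hij)) n1 hx1) (key _ _ (sub_ne_zero.2 hjl) n3 hx3)
        · ring
        · linear_combination hp
      · by_cases e3 : x = l
        · subst e3
          refine con_tor (Ne.symm hil) (Ne.symm hjl) hij ?_ n3 n1 n2 ?_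
            (key _ _ (sub_ne_zero.2 (Ne.symm hil)) n1 hx1)
            (key _ _ (sub_ne_zero.2 (Ne.symm hjl)) n2 hx2)
          · ring
          · linear_combination hp
        · right
          left
          have t : ∀ (r : k) (hr : h.eval r ≠ 0) (hxr : x ≠ r)
              (hq : quadraticChar k (x - r) ≠ -quadraticChar k (h.eval r)),
              IsSquare ((h * (C x - X)).eval r) := by
            intro r hr hxr hq
            have e : (h * (C x - X)).eval r = h.eval r * (x - r) := by simp
            rw [e]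
            refine (sq_iff (mul_ne_zero hr (sub_ne_zero.2 hxr))).2 ?_
            rw [map_mul, key _ _ (sub_ne_zero.2 hxr) hr hq]
            rcases pm hr with h | h <;> rw [h] <;> norm_num
          obtain ⟨s, hs⟩ := sq3 hij hil hjl (t i n1 e1 hx1) (t j n2 e2 hx2) (t l n3 e3 hx3)
          refine ⟨x, s, ?_, hs⟩
          simp only [eval_mul, eval_sub, eval_X, eval_C]
          exact mul_ne_zero (sub_ne_zero.2 e1) (mul_ne_zero (sub_ne_zero.2 e2) (sub_ne_zero.2 e3))

end main

/-- A monic polynomial of degree at least one with a root. -/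
theorem split_root {k : Type} [Field k] {f : k[X]} {n : ℕ} (hf : f.Monic)
    (hd : f.natDegree = n + 1) {e : k} (he : f.IsRoot e) :
    ∃ g : k[X], f = (X - C e) * g ∧ g.Monic ∧ g.natDegree = n := by
  refine ⟨f /ₘ (X - C e), (mul_divByMonic_eq_iff_isRoot.2 he).symm, ?_, ?_⟩
  · have h1 : ((X - C e) * (f /ₘ (X - C e))).Monic := by
      rw [mul_divByMonic_eq_iff_isRoot.2 he]
      exact hf
    exact (monic_X_sub_C e).of_mul_monic_left h1
  · rw [natDegree_divByMonic f (monic_X_sub_C e), hd, natDegree_X_sub_C]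
    rfl

/-- **SP/RES1** -/
theorem t_RES1 : S_RES1 := by
  intro k _ _ h2 f h hf hd hsep hc hN
  show Con f h
  by_cases hi : Irreducible f
  · left
    exact sq_of_norm h2 hf hi hN (nrm_ne hc)
  · have h1 : ∃ e, f.IsRoot e := by
      by_contra hno
      push Not at hno
      refine hi ((hf.irreducible_iff_roots_eq_zero_of_degree_le_three (by omega) (by omega)).2 ?_)
      refine Multiset.eq_zero_of_forall_notMem fun x hx => ?_
      exact hno x ((mem_roots hf.ne_zero).1 hx)
    obtain ⟨e, he⟩ := h1
    obtain ⟨g, rfl, hg, hgd⟩ := split_root hf hd he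
    have hcg : IsCoprime (X - C e) g := hsep.isCoprime
    by_cases hgi : Irreducible g
    · exact con2 h2 hg hgd hgi hcg hc hN
    · have h3 : ∃ j, g.IsRoot j := by
        by_contra hno
        push Not at hno
        refine hgi ((hg.irreducible_iff_roots_eq_zero_of_degree_le_three (by omega)
          (by omega)).2 ?_)
        refine Multiset.eq_zero_of_forall_notMem fun x hx => ?_
        exact hno x ((mem_roots hg.ne_zero).1 hx)
      obtain ⟨j, hj⟩ := h3
      obtain ⟨g', rfl, hg', hgd'⟩ := split_root hg hgd hj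
      obtain ⟨l, hl⟩ : ∃ l, g' = X - C l := by
        refine ⟨-(g'.coeff 0), ?_⟩
        rw [hg'.eq_X_add_C hgd']
        simp
      subst hl
      have hs2 : ((X - C j) * (X - C l)).Separable := hsep.of_mul_right
      have nc : ∀ {a b : k}, IsCoprime (X - C a) (X - C b) → a ≠ b := by
        rintro a b hab rfl
        have := isCoprime_self.1 hab
        exact not_isUnit_X_sub_C a this
      exact con3 h2 (nc hcg.of_mul_right_left) (nc hcg.of_mul_right_right) (nc hs2.isCoprime) hc hN

end Pool.Agent.L0h51.SP
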